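import Pool.Agent.helper58.CRO.SpecC

set_option autoImplicit false

open scoped Manifold ContDiff Topology ENNReal
open MeasureTheory Set

noncomputable section

namespace Pool.Agent.CRO

theorem RAT_zero : 1 ≤ kap 0 := by
  have h1 : (volume (parallelepiped (stdOrthonormalBasis ℝ (En 0)))) = 1 :=
    (stdOrthonormalBasis ℝ (En 0)).volume_parallelepiped
  have h2 : parallelepiped (stdOrthonormalBasis ℝ (En 0)) ⊆ Metric.ball (0 : En 0) 1 := by
    intro x _
    have : x = 0 := Subsingleton.elim _ _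
    rw [this]
    exact Metric.mem_ball_self one_pos
  have h3 := measure_mono (μ := volume) h2
  rw [h1] at h3
  have h4 := ENNReal.toReal_mono (measure_ball_lt_top (μ := volume) (x := (0 : En 0)) (r := 1)).ne h3
  rw [ENNReal.toReal_one] at h4
  exact h4

theorem RAT_kap (n : ℕ) : Real.sqrt Real.pi ^ n / Real.Gamma (n / 2 + 1) ≤ kap n := by
  rcases Nat.eq_zero_or_pos n with rfl | hn
  · simp only [pow_zero, Nat.cast_zero, zero_div, zero_add, Real.Gamma_one, div_one]
    exact RAT_zero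
  · have : Nonempty (Fin n) := ⟨⟨0, hn⟩⟩
    have h := EuclideanSpace.volume_ball (Fin n) (0 : En n) 1
    have hg : 0 < Real.Gamma ((n : ℝ) / 2 + 1) := Real.Gamma_pos_of_pos (by positivity)
    rw [kap, h, Fintype.card_fin, ENNReal.ofReal_one, one_pow, one_mul, ENNReal.toReal_ofReal (by positivity)]

theorem RAT_gamma (x : ℝ) (hx : 0 < x) : Real.Gamma (x + 1 / 2) ≤ Real.sqrt x * Real.Gamma x := by
  have h := Real.Gamma_mul_add_mul_le_rpow_Gamma_mul_rpow_Gamma (s := x) (t := x + 1) (a := 1 / 2) (b := 1 / 2)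
    hx (by linarith) (by norm_num) (by norm_num) (by norm_num)
  have e1 : 1 / 2 * x + 1 / 2 * (x + 1) = x + 1 / 2 := by ring
  have hg : 0 < Real.Gamma x := Real.Gamma_pos_of_pos hx
  rw [e1, Real.Gamma_add_one hx.ne', Real.mul_rpow hx.le hg.le, ← Real.sqrt_eq_rpow, ← Real.sqrt_eq_rpow] at h
  refine h.trans (le_of_eq ?_)
  have : Real.sqrt (Real.Gamma x) * (Real.sqrt x * Real.sqrt (Real.Gamma x)) =
      Real.sqrt x * (Real.sqrt (Real.Gamma x) * Real.sqrt (Real.Gamma x)) := by ring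
  rw [this, Real.mul_self_sqrt hg.le]

theorem RAT : RAT_stmt := by
  intro n
  have hk := RAT_kap n
  have hg1 : 0 < Real.Gamma ((n : ℝ) / 2 + 1) := Real.Gamma_pos_of_pos (by positivity)
  have hg2 : 0 < Real.Gamma (((n : ℝ) + 1) / 2) := Real.Gamma_pos_of_pos (by positivity)
  have hpi := Real.pi_pos
  have hsp : 0 < Real.sqrt Real.pi := Real.sqrt_pos.2 hpi
  have hk0 : 0 < Real.sqrt Real.pi ^ n / Real.Gamma (n / 2 + 1) := by positivity
  have hsv : sphereVol n = 2 * Real.sqrt Real.pi ^ (n + 1) / Real.Gamma (((n : ℝ) + 1) / 2) := by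
    unfold sphereVol
    have : Real.pi ^ (((n : ℝ) + 1) / 2) = Real.sqrt Real.pi ^ (n + 1) := by
      rw [Real.sqrt_eq_rpow, ← Real.rpow_natCast, ← Real.rpow_mul hpi.le]
      push_cast
      ring_nf
    rw [this]
  refine ⟨lt_of_lt_of_le hk0 hk, ?_, ?_⟩
  · rw [hsv]
    positivity
  · have h1 : 4 * ((n : ℝ) + 1) * (Real.sqrt Real.pi ^ n / Real.Gamma (n / 2 + 1)) ≤ 4 * ((n : ℝ) + 1) * kap n :=
      mul_le_mul_of_nonneg_left hk (by positivity)
    refine le_trans ?_ h1
    rw [hsv]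
    set x : ℝ := ((n : ℝ) + 1) / 2 with hx
    have hx0 : 0 < x := by positivity
    have hx1 : (n : ℝ) / 2 + 1 = x + 1 / 2 := by rw [hx]; ring
    have hx2 : (n : ℝ) + 1 = 2 * x := by rw [hx]; ring
    have hx3 : 1 / 2 ≤ x := by
      rw [hx]
      have : (0 : ℝ) ≤ n := Nat.cast_nonneg n
      linarith
    have hG := RAT_gamma x hx0
    rw [hx1] at hg1 ⊢
    rw [hx2]
    have hsx : 1 / 2 ≤ Real.sqrt x := by
      apply Real.le_sqrt_of_sq_le
      norm_num
      linarith
    have hspi : Real.sqrt Real.pi ≤ 2 := by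
      rw [Real.sqrt_le_left (by norm_num)]
      have := Real.pi_le_four
      linarith
    rw [mul_div_assoc', div_le_div_iff₀ hg2 hg1, pow_succ]
    have e2 : Real.sqrt Real.pi * Real.Gamma (x + 1 / 2) ≤ 4 * x * Real.Gamma x := by
      have hs : Real.sqrt x * Real.sqrt x = x := Real.mul_self_sqrt hx0.le
      calc Real.sqrt Real.pi * Real.Gamma (x + 1 / 2) ≤ 2 * (Real.sqrt x * Real.Gamma x) :=
            mul_le_mul hspi hG hg1.le (by norm_num)
        _ ≤ (4 * Real.sqrt x) * (Real.sqrt x * Real.Gamma x) := by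
            apply mul_le_mul_of_nonneg_right _ (by positivity)
            linarith
        _ = 4 * (Real.sqrt x * Real.sqrt x) * Real.Gamma x := by ring
        _ = 4 * x * Real.Gamma x := by rw [hs]
    have e3 : 2 * (Real.sqrt Real.pi ^ n * Real.sqrt Real.pi) * Real.Gamma (x + 1 / 2) =
        2 * Real.sqrt Real.pi ^ n * (Real.sqrt Real.pi * Real.Gamma (x + 1 / 2)) := by ring
    have e4 : 4 * (2 * x) * Real.sqrt Real.pi ^ n * Real.Gamma x =
        2 * Real.sqrt Real.pi ^ n * (4 * x * Real.Gamma x) := by ring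
    rw [e3, e4]
    exact mul_le_mul_of_nonneg_left e2 (by positivity)

end Pool.Agent.CRO
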