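import Pool.Agent.helper58.CRO.SpecL

set_option autoImplicit false

open scoped Manifold ContDiff Topology ENNReal
open MeasureTheory Set Bundle Filter

noncomputable section

namespace Pool.Agent.CRO

private theorem LQI_qf (n : ℕ) (x : ℝ) : qf n x = 1 - Real.sin (Real.arctan x) ^ (n - 1) := by
  unfold qf
  rw [Real.sin_arctan]

private theorem LQI_sin {x : ℝ} (hx : 0 ≤ x) :
    0 ≤ Real.sin (Real.arctan x) ∧ Real.sin (Real.arctan x) ≤ 1 := by
  refine ⟨?_, Real.sin_le_one _⟩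
  rw [Real.sin_arctan]
  positivity

private theorem LQI_bd (n : ℕ) {x : ℝ} (hn : 2 ≤ n) (hx : 0 < x) :
    qf n x ≤ ((n : ℝ) - 1) / (2 * x ^ 2) := by
  obtain ⟨h0, h1⟩ := LQI_sin hx.le
  have hb := one_add_mul_le_pow (a := Real.sin (Real.arctan x) - 1) (by linarith) (n - 1)
  rw [add_sub_cancel] at hb
  rw [LQI_qf]
  have hc : ((n - 1 : ℕ) : ℝ) = (n : ℝ) - 1 := by
    rw [Nat.cast_sub (by omega), Nat.cast_one]
  rw [hc] at hb
  have hn0 : (0 : ℝ) ≤ (n : ℝ) - 1 := by
    have : (2 : ℝ) ≤ n := by exact_mod_cast hn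
    linarith
  have h2 : 1 - Real.sin (Real.arctan x) ≤ 1 / (2 * x ^ 2) := by
    rw [Real.sin_arctan]
    have hs : 0 < Real.sqrt (1 + x ^ 2) := Real.sqrt_pos.2 (by positivity)
    have hss : Real.sqrt (1 + x ^ 2) ^ 2 = 1 + x ^ 2 := Real.sq_sqrt (by positivity)
    set s := Real.sqrt (1 + x ^ 2) with hsd
    have hxs : x ≤ s := by
      rw [hsd]
      exact Real.le_sqrt_of_sq_le (by linarith)
    have h3 : 1 - x / s = 1 / (s * (s + x)) := by
      have h4 : s + x ≠ 0 := by positivity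
      field_simp
      linarith
    rw [h3]
    refine one_div_le_one_div_of_le (by positivity) ?_
    nlinarith
  have h5 : ((n : ℝ) - 1) * (1 - Real.sin (Real.arctan x)) ≤ ((n : ℝ) - 1) * (1 / (2 * x ^ 2)) :=
    mul_le_mul_of_nonneg_left h2 hn0
  rw [mul_one_div] at h5
  linarith

/-- antiderivative of `q` -/
private def LQI_Q (n : ℕ) (x : ℝ) : ℝ :=
  x * qf n x + ((n : ℝ) - 1) * ∫ t in (0 : ℝ)..(Real.arctan x), Real.sin t ^ (n - 1)

private theorem LQI_der (n : ℕ) (hn : 2 ≤ n) (x : ℝ) : HasDerivAt (LQI_Q n) (qf n x) x := by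
  have hc : ((n - 1 : ℕ) : ℝ) = (n : ℝ) - 1 := by
    rw [Nat.cast_sub (by omega), Nat.cast_one]
  have h1 : HasDerivAt (fun y : ℝ => qf n y)
      (-(((n - 1 : ℕ) : ℝ) * Real.sin (Real.arctan x) ^ (n - 1 - 1) *
        (Real.cos (Real.arctan x) * (1 / (1 + x ^ 2))))) x := by
    have h2 : HasDerivAt (fun y : ℝ => Real.sin (Real.arctan y))
        (Real.cos (Real.arctan x) * (1 / (1 + x ^ 2))) x :=
      (Real.hasDerivAt_sin (Real.arctan x)).comp x (Real.hasDerivAt_arctan x)
    have h3 := (h2.pow (n - 1)).const_sub 1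
    have h4 : (fun y : ℝ => qf n y) = fun y => 1 - Real.sin (Real.arctan y) ^ (n - 1) :=
      funext fun y => LQI_qf n y
    rw [h4]
    exact h3
  have h5 : HasDerivAt (fun y : ℝ => ∫ t in (0 : ℝ)..(Real.arctan y), Real.sin t ^ (n - 1))
      (Real.sin (Real.arctan x) ^ (n - 1) * (1 / (1 + x ^ 2))) x := by
    have hcont : Continuous fun t : ℝ => Real.sin t ^ (n - 1) := by fun_prop
    have h6 := (hcont.integral_hasStrictDerivAt 0 (Real.arctan x)).hasDerivAt
    exact h6.comp x (Real.hasDerivAt_arctan x)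
  have h7 := ((hasDerivAt_id x).mul h1).add (h5.const_mul ((n : ℝ) - 1))
  refine h7.congr_deriv ?_
  have hxc : x * Real.cos (Real.arctan x) = Real.sin (Real.arctan x) := by
    rw [Real.cos_arctan, Real.sin_arctan, mul_one_div]
  have hp : Real.sin (Real.arctan x) ^ (n - 1) =
      Real.sin (Real.arctan x) ^ (n - 1 - 1) * Real.sin (Real.arctan x) := by
    rw [← pow_succ]
    congr 1
    omega
  rw [hc, hp, ← hxc, id_eq]
  ring

theorem LQI : LQI_stmt := by
  intro n hn
  have h01 : ∀ x : ℝ, 0 ≤ x → 0 ≤ qf n x ∧ qf n x ≤ 1 := by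
    intro x hx
    obtain ⟨h0, h1⟩ := LQI_sin hx
    rw [LQI_qf]
    have h2 : Real.sin (Real.arctan x) ^ (n - 1) ≤ 1 := pow_le_one₀ h0 h1
    have h3 : 0 ≤ Real.sin (Real.arctan x) ^ (n - 1) := pow_nonneg h0 _
    constructor <;> linarith
  have hlim : Tendsto (LQI_Q n) atTop (𝓝 (((n : ℝ) - 1) * X0 n)) := by
    have h1 : Tendsto (fun x : ℝ => x * qf n x) atTop (𝓝 0) := by
      have h2 : Tendsto (fun x : ℝ => ((n : ℝ) - 1) / 2 * x⁻¹) atTop (𝓝 0) := by
        have h3 := tendsto_inv_atTop_zero (𝕜 := ℝ) |>.const_mul (((n : ℝ) - 1) / 2)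
        rwa [mul_zero] at h3
      refine squeeze_zero' ?_ ?_ h2
      · filter_upwards [eventually_ge_atTop (0 : ℝ)] with x hx
        exact mul_nonneg hx (h01 x hx).1
      · filter_upwards [eventually_gt_atTop (0 : ℝ)] with x hx
        have h3 := mul_le_mul_of_nonneg_left (LQI_bd n hn hx) hx.le
        refine h3.trans (le_of_eq ?_)
        field_simp
    have h4 : Tendsto (fun x : ℝ => ∫ t in (0 : ℝ)..(Real.arctan x), Real.sin t ^ (n - 1)) atTop
        (𝓝 (X0 n)) := by
      have hcont : Continuous fun t : ℝ => Real.sin t ^ (n - 1) := by fun_prop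
      have h5 : Continuous fun u : ℝ => ∫ t in (0 : ℝ)..u, Real.sin t ^ (n - 1) :=
        intervalIntegral.continuous_primitive (fun a b => hcont.intervalIntegrable a b) 0
      have h6 : Tendsto Real.arctan atTop (𝓝 (Real.pi / 2)) :=
        tendsto_nhds_of_tendsto_nhdsWithin Real.tendsto_arctan_atTop
      exact (h5.tendsto (Real.pi / 2)).comp h6
    have h7 := h1.add (h4.const_mul ((n : ℝ) - 1))
    rw [zero_add] at h7
    exact h7
  have hQ0 : LQI_Q n 0 = 0 := by
    unfold LQI_Q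
    rw [Real.arctan_zero, intervalIntegral.integral_same, zero_mul, mul_zero, add_zero]
  refine ⟨?_, h01, fun x hx => LQI_bd n hn hx, ?_, ?_⟩
  · intro x hx y hy hxy
    rw [LQI_qf, LQI_qf]
    have h1 : Real.sin (Real.arctan x) ≤ Real.sin (Real.arctan y) := by
      refine Real.sin_le_sin_of_le_of_le_pi_div_two ?_ (Real.arctan_lt_pi_div_two y).le
        (Real.arctan_strictMono.monotone hxy)
      exact (Real.neg_pi_div_two_lt_arctan x).le
    have h2 := pow_le_pow_left₀ (LQI_sin hx).1 h1 (n - 1)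
    linarith
  · exact integrableOn_Ioi_deriv_of_nonneg' (fun x _ => LQI_der n hn x)
      (fun x hx => (h01 x (le_of_lt hx)).1) hlim
  · have h := integral_Ioi_of_hasDerivAt_of_nonneg' (fun x _ => LQI_der n hn x)
      (fun x (hx : x ∈ Ioi (0 : ℝ)) => (h01 x (le_of_lt hx)).1) hlim
    rw [h, hQ0, sub_zero]

end Pool.Agent.CRO
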